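import Pool.Agent.H54PS.Main

set_option autoImplicit false

/-! There are a set `D` of low₄ degree and a `D`-presented Polish space `X` of covering dimension
at most one such that `X` is not homeomorphic to any computably presented Polish space.

The space: let `D` be such that the fourth jump of `D` is equivalent to the fourth jump of the
empty set, but the third jump of `D` is not computable from the third jump of the empty set
(relativized Friedberg jump inversion, used four times).  A set `S` of numbers that is
Sigma-one in the third jump of `D` but not in the third jump of the empty set is coded into `X`:
`n ∈ S` iff for some `m`, all the sets `{i | W n m a i}` are finite, where `W` is c.e. in `D` and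
increasing in `a`.  For every pair `(n, m)` the space has a clopen piece which is a star with
`n + 3` arms together with the isolated points `z a i` at distance `2 ^ (-a)` from the centre of
the star, one for every `(a, i)` with `W n m a i`.  Then `n ∈ S` iff the space has a compact open
subset which contains a star with `n + 3` arms but none with `n + 4` arms, and that is
Sigma-one in the third jump of `O` for each `O`-presented copy of the space. -/

namespace Pool.Agent.Results.MP_f0c992_lc.LowFourPresented

open Pool.Agent.H54PS Pool.Agent.Helper227

/-- A `D`-presented space is Polish. -/
theorem polish {D : ℕ → Bool} {X : Type} [t : TopologicalSpace X] (h : Presented D X) :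
    PolishSpace X := by
  obtain ⟨d, rfl, hc, x, hx, -⟩ := h
  have h1 : TopologicalSpace.SeparableSpace X := ⟨⟨Set.range x, Set.countable_range x, hx⟩⟩
  have h2 : SecondCountableTopology X := UniformSpace.secondCountable_of_separable X
  infer_instance

theorem result : ∃ D : ℕ → Bool, Low4 D ∧
    ∃ (X : Type) (_ : TopologicalSpace X), PolishSpace X ∧ Presented D X ∧ CovDimLE X 1 ∧
      ∀ (Y : Type) [TopologicalSpace Y], Presented (fun _ => false) Y → IsEmpty (X ≃ₜ Y) := by
  obtain ⟨D, h1, X, t, h2, h3, h4⟩ := main
  exact ⟨D, h1, X, t, polish h2, h2, h3, h4⟩

end Pool.Agent.Results.MP_f0c992_lc.LowFourPresented
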